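import Mathlib

/-!
For every integer `n ≥ 2` the number
`a_n = 1/(n (2n+1) C(2n,n)) * ∑_{k<n} (10k+3) C(2k,k)^2 C(3k,k) 8^(n-1-k)`
is an integer.

The proof.  A WZ pair gives the closed form
`a_n = (1/2) ∑_{k<n} (-1)^k V(n,k)`, where
`V(n,k) = (3n)! (2n+2k)! / ((2n+1)! (n-k-1)! (n+2k+1)! (n+k)!)`,
and `V(n,k)` is an even integer for all `n ≥ 2`, `0 ≤ k < n`: this is shown
prime by prime with Legendre's formula.
-/

namespace Pool.Agent.Results.MP_1cf91b_nt.Integrality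

open Nat

/-! ### The floor inequality -/

lemma div_cases (q r : ℕ) (hq : 0 < q) (h : r < 6*q) :
    (r/q = 0 ∧ r < q) ∨ (r/q = 1 ∧ q ≤ r ∧ r < 2*q) ∨ (r/q = 2 ∧ 2*q ≤ r ∧ r < 3*q) ∨
    (r/q = 3 ∧ 3*q ≤ r ∧ r < 4*q) ∨ (r/q = 4 ∧ 4*q ≤ r ∧ r < 5*q) ∨
    (r/q = 5 ∧ 5*q ≤ r ∧ r < 6*q) := by
  have h1 : r/q < 6 := by
    rw [Nat.div_lt_iff_lt_mul hq]; exact h
  have h2 : q * (r/q) ≤ r := Nat.mul_div_le r q
  have h3 : r < q * (r/q) + q := (Nat.lt_mul_div_succ r hq).trans_eq (by ring)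
  interval_cases h : r/q <;> omega

lemma small_ineq (q b c : ℕ) (hq : 2 ≤ q) (hb : b < q) (hc : c < q) :
    (2*b+2*c+3)/q + (3*b+c+2)/q + (2*b+c+1)/q ≤ (3*b+3*c+3)/q + (4*b+2*c+2)/q := by
  have hq0 : 0 < q := by omega
  have e1 := div_cases q (2*b+2*c+3) hq0 (by omega)
  have e2 := div_cases q (3*b+c+2) hq0 (by omega)
  have e3 := div_cases q (2*b+c+1) hq0 (by omega)
  have e4 := div_cases q (3*b+3*c+3) hq0 (by omega)
  have e5 := div_cases q (4*b+2*c+2) hq0 (by omega)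
  generalize (2*b+2*c+3)/q = x1 at *
  generalize (3*b+c+2)/q = x2 at *
  generalize (2*b+c+1)/q = x3 at *
  generalize (3*b+3*c+3)/q = x4 at *
  generalize (4*b+2*c+2)/q = x5 at *
  rcases e1 with e1 | e1 | e1 | e1 | e1 | e1 <;> omega

/-- With `n = k + j + 1`:
`⌊(2n+1)/q⌋ + ⌊j/q⌋ + ⌊(n+2k+1)/q⌋ + ⌊(n+k)/q⌋ ≤ ⌊3n/q⌋ + ⌊(2n+2k)/q⌋` for `q ≥ 2`. -/
lemma floor_ineq (q n k j : ℕ) (hq : 2 ≤ q) (hn : n = k + j + 1) :
    (2*n+1)/q + j/q + (n+2*k+1)/q + (n+k)/q ≤ (3*n)/q + (2*n+2*k)/q := by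
  have hq0 : 0 < q := by omega
  obtain ⟨v, b, hb, hk⟩ : ∃ v b, b < q ∧ k = q*v + b :=
    ⟨k/q, k%q, Nat.mod_lt _ hq0, (Nat.div_add_mod k q).symm⟩
  obtain ⟨w, c, hc, hj⟩ : ∃ w c, c < q ∧ j = q*w + c :=
    ⟨j/q, j%q, Nat.mod_lt _ hq0, (Nat.div_add_mod j q).symm⟩
  have key : ∀ m r, (q*m + r)/q = m + r/q := fun m r => by
    rw [Nat.mul_add_div hq0]
  have h1 : (2*n+1)/q = (2*v+2*w) + (2*b+2*c+3)/q := by
    rw [← key]; congr 1; subst hn hk hj; ring
  have h2 : j/q = w := by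
    rw [hj, key, Nat.div_eq_of_lt hc, Nat.add_zero]
  have h3 : (n+2*k+1)/q = (3*v+w) + (3*b+c+2)/q := by
    rw [← key]; congr 1; subst hn hk hj; ring
  have h4 : (n+k)/q = (2*v+w) + (2*b+c+1)/q := by
    rw [← key]; congr 1; subst hn hk hj; ring
  have h5 : (3*n)/q = (3*v+3*w) + (3*b+3*c+3)/q := by
    rw [← key]; congr 1; subst hn hk hj; ring
  have h6 : (2*n+2*k)/q = (4*v+2*w) + (4*b+2*c+2)/q := by
    rw [← key]; congr 1; subst hn hk hj; ring
  have := small_ineq q b c hq hb hc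
  rw [h1, h2, h3, h4, h5, h6]
  omega

/-! ### Valuations of the factorial quotient -/

lemma val_le (p : ℕ) [hp : Fact p.Prime] (n k j : ℕ) (hn : n = k + j + 1) :
    padicValNat p (2*n+1)! + padicValNat p j ! + padicValNat p (n+2*k+1)! +
      padicValNat p (n+k)! ≤ padicValNat p (3*n)! + padicValNat p (2*n+2*k)! := by
  have hb : ∀ m, m ≤ 5*n+5 → Nat.log p m < 5*n+6 := fun m hm =>
    lt_of_le_of_lt (Nat.log_le_self p m) (by omega)
  rw [padicValNat_factorial (hb (2*n+1) (by omega)), padicValNat_factorial (hb j (by omega)),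
    padicValNat_factorial (hb (n+2*k+1) (by omega)), padicValNat_factorial (hb (n+k) (by omega)),
    padicValNat_factorial (hb (3*n) (by omega)), padicValNat_factorial (hb (2*n+2*k) (by omega)),
    ← Finset.sum_add_distrib, ← Finset.sum_add_distrib, ← Finset.sum_add_distrib,
    ← Finset.sum_add_distrib]
  refine Finset.sum_le_sum fun i hi => ?_
  have hi' := Finset.mem_Ico.mp hi
  refine floor_ineq (p^i) n k j ?_ hn
  calc 2 ≤ p := hp.out.two_le
    _ = p^1 := (pow_one p).symm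
    _ ≤ p^i := Nat.pow_le_pow_right hp.out.pos hi'.1

/-- the `2`-adic sharpening. -/
lemma val_two (n k j : ℕ) (hn : n = k + j + 1) (h2 : 2 ≤ n) :
    1 + (padicValNat 2 (2*n+1)! + padicValNat 2 j ! + padicValNat 2 (n+2*k+1)! +
      padicValNat 2 (n+k)!) ≤ padicValNat 2 (3*n)! + padicValNat 2 (2*n+2*k)! := by
  have e1 : padicValNat 2 (2*n+1)! = padicValNat 2 n ! + n := by
    rw [padicValNat_factorial_mul_add n (by norm_num), padicValNat_factorial_mul]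
  have e2 : padicValNat 2 (2*n+2*k)! = padicValNat 2 (n+k)! + (n+k) := by
    rw [← Nat.mul_add, padicValNat_factorial_mul]
  have e3 : padicValNat 2 (2*j+1)! = padicValNat 2 j ! + j := by
    rw [padicValNat_factorial_mul_add j (by norm_num), padicValNat_factorial_mul]
  have hC : 3*n = (2*j+1) + (n+2*k+1) := by omega
  have e4 : padicValNat 2 (3*n)! = padicValNat 2 ((3*n).choose (2*j+1)) +
      padicValNat 2 (2*j+1)! + padicValNat 2 (n+2*k+1)! := by
    have hle : 2*j+1 ≤ 3*n := by omega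
    have hsub : 3*n - (2*j+1) = n+2*k+1 := by omega
    have hf := Nat.choose_mul_factorial_mul_factorial hle
    rw [hsub] at hf
    rw [← hf, padicValNat.mul, padicValNat.mul]
    · exact (Nat.choose_pos hle).ne'
    · exact (Nat.factorial_pos _).ne'
    · exact mul_ne_zero (Nat.choose_pos hle).ne' (Nat.factorial_pos _).ne'
    · exact (Nat.factorial_pos _).ne'
  have hlt : ∀ m, m ≠ 0 → padicValNat 2 m ! < m := fun m hm => by
    have := sub_one_mul_padicValNat_factorial_lt_of_ne_zero 2 hm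
    simpa using this
  have main : 1 ≤ padicValNat 2 ((3*n).choose (2*j+1)) + (n - 1 - padicValNat 2 n !) := by
    rcases Nat.even_or_odd' n with ⟨m, hm | hm⟩
    · -- `n` even: the binomial coefficient is even
      have hpos : (3*n).choose (2*j+1) ≠ 0 := (Nat.choose_pos (by omega)).ne'
      have hdvd : 2 ∣ (3*n).choose (2*j+1) := by
        have h := Nat.add_one_mul_choose_eq (3*n-1) (2*j)
        have h3 : 3*n-1+1 = 3*n := by omega
        rw [h3] at h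
        have hd : 2 ∣ (3*n).choose (2*j+1) * (2*j+1) := by
          rw [← h, hm]
          exact Dvd.dvd.mul_right ⟨3*m, by ring⟩ _
        exact (Nat.Coprime.dvd_mul_right (by
          rw [Nat.coprime_two_left]; exact ⟨j, rfl⟩)).mp hd
      have := one_le_padicValNat_of_dvd hpos hdvd
      omega
    · -- `n` odd
      have hm0 : 2*m ≠ 0 := by omega
      have h5 : padicValNat 2 n ! = padicValNat 2 (2*m)! := by
        rw [hm]; exact padicValNat_factorial_mul_add m (by norm_num)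
      have h6 := hlt (2*m) hm0
      omega
  have h7 := hlt n (by omega)
  omega

lemma two_mul_dvd (n k j : ℕ) (hn : n = k + j + 1) (h2 : 2 ≤ n) :
    2 * ((2*n+1)! * j ! * (n+2*k+1)! * (n+k)!) ∣ (3*n)! * (2*n+2*k)! := by
  have f := Nat.factorial_ne_zero
  have hD : (2*n+1)! * j ! * (n+2*k+1)! * (n+k)! ≠ 0 :=
    mul_ne_zero (mul_ne_zero (mul_ne_zero (f _) (f _)) (f _)) (f _)
  have hT : (3*n)! * (2*n+2*k)! ≠ 0 := mul_ne_zero (f _) (f _)
  rw [← Nat.factorization_prime_le_iff_dvd (mul_ne_zero two_ne_zero hD) hT]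
  intro p hp
  have : Fact p.Prime := ⟨hp⟩
  rw [Nat.factorization_def _ hp, Nat.factorization_def _ hp,
    padicValNat.mul two_ne_zero hD,
    padicValNat.mul (mul_ne_zero (mul_ne_zero (f _) (f _)) (f _)) (f _),
    padicValNat.mul (mul_ne_zero (f _) (f _)) (f _),
    padicValNat.mul (f _) (f _), padicValNat.mul (f _) (f _)]
  rcases eq_or_ne p 2 with rfl | hp2
  · have := val_two n k j hn h2
    rw [padicValNat_self]
    exact this
  · have h0 : padicValNat p 2 = 0 := by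
      apply padicValNat.eq_zero_of_not_dvd
      intro h
      exact hp2 ((Nat.prime_dvd_prime_iff_eq hp Nat.prime_two).mp h)
    rw [h0, Nat.zero_add]
    exact val_le p n k j hn

/-! ### The WZ identity -/

/-- the certificate side -/
noncomputable def w (n k : ℕ) : ℚ :=
  (-1)^k * ((3*n)! : ℚ) * ((2*n+2*k)! : ℚ) /
    ((n ! : ℚ)^2 * ((n-1-k)! : ℚ) * ((n+2*k+1)! : ℚ) * ((n+k)! : ℚ))

/-- the summand side -/
noncomputable def H (n k : ℕ) : ℚ :=
  (-1)^k * (10*n+2*k+3) * ((3*n)! : ℚ) * ((2*n+2*k)! : ℚ) /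
    ((n ! : ℚ)^2 * ((n-k)! : ℚ) * ((n+2*k)! : ℚ) * ((n+k)! : ℚ))

lemma wz_step (n k : ℕ) (hk : k < n) :
    (1/2) * ((n:ℚ)+1) * w (n+1) k = 4 * n * w n k + (H n k - H n (k+1)) := by
  obtain ⟨j, rfl⟩ : ∃ j, n = k + 1 + j := ⟨n - (k+1), by omega⟩
  unfold w H
  have a1 : k+1+j+1-1-k = j+1 := by omega
  have a2 : k+1+j-1-k = j := by omega
  have a3 : k+1+j-k = j+1 := by omega
  have a4 : k+1+j-(k+1) = j := by omega
  rw [a1, a2, a3, a4]
  set n := k+1+j with hn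
  have b1 : (3*(n+1))! = (3*n+3)*((3*n+2)*((3*n+1)*(3*n)!)) := by
    rw [show 3*(n+1) = 3*n+1+1+1 by ring, Nat.factorial_succ, Nat.factorial_succ,
      Nat.factorial_succ]
  have b2 : (2*(n+1)+2*k)! = (2*n+2*k+2)*((2*n+2*k+1)*(2*n+2*k)!) := by
    rw [show 2*(n+1)+2*k = 2*n+2*k+1+1 by ring, Nat.factorial_succ, Nat.factorial_succ]
  have b3 : (2*n+2*(k+1))! = (2*n+2*k+2)*((2*n+2*k+1)*(2*n+2*k)!) := by
    rw [show 2*n+2*(k+1) = 2*n+2*k+1+1 by ring, Nat.factorial_succ, Nat.factorial_succ]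
  have b4 : (n+1)! = (n+1) * n ! := Nat.factorial_succ n
  have b5 : (j+1)! = (j+1) * j ! := Nat.factorial_succ j
  have b6 : (n+1+2*k+1)! = (n+2*k+2)*((n+2*k+1)*(n+2*k)!) := by
    rw [show n+1+2*k+1 = n+2*k+1+1 by ring, Nat.factorial_succ, Nat.factorial_succ]
  have b7 : (n+2*k+1)! = (n+2*k+1)*(n+2*k)! := Nat.factorial_succ _
  have b8 : (n+2*(k+1))! = (n+2*k+2)*((n+2*k+1)*(n+2*k)!) := by
    rw [show n+2*(k+1) = n+2*k+1+1 by ring, Nat.factorial_succ, Nat.factorial_succ]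
  have b9 : (n+1+k)! = (n+k+1)*(n+k)! := by
    rw [show n+1+k = n+k+1 by ring, Nat.factorial_succ]
  have b10 : (n+(k+1))! = (n+k+1)*(n+k)! := by
    rw [show n+(k+1) = n+k+1 by ring, Nat.factorial_succ]
  rw [b1, b2, b3, b4, b5, b6, b7, b8, b9, b10]
  have hnq : (n:ℚ) = k+1+j := by rw [hn]; push_cast; ring
  have c1 : ((3*n)! : ℚ) ≠ 0 := by exact_mod_cast Nat.factorial_ne_zero _
  have c2 : ((2*n+2*k)! : ℚ) ≠ 0 := by exact_mod_cast Nat.factorial_ne_zero _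
  have c3 : (n ! : ℚ) ≠ 0 := by exact_mod_cast Nat.factorial_ne_zero _
  have c4 : (j ! : ℚ) ≠ 0 := by exact_mod_cast Nat.factorial_ne_zero _
  have c5 : ((n+2*k)! : ℚ) ≠ 0 := by exact_mod_cast Nat.factorial_ne_zero _
  have c6 : ((n+k)! : ℚ) ≠ 0 := by exact_mod_cast Nat.factorial_ne_zero _
  generalize (3*n)! = A at *
  generalize (2*n+2*k)! = B at *
  generalize (n)! = C at *
  generalize (j)! = D at *
  generalize (n+2*k)! = E at *
  generalize (n+k)! = F at *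
  push_cast
  have d1 : (n:ℚ)+1 ≠ 0 := by positivity
  have d2 : (j:ℚ)+1 ≠ 0 := by positivity
  have d3 : (n:ℚ)+2*k+1 ≠ 0 := by positivity
  have d4 : (n:ℚ)+2*k+2 ≠ 0 := by positivity
  have d5 : (n:ℚ)+k+1 ≠ 0 := by positivity
  rw [pow_succ (-1:ℚ) k]
  field_simp
  rw [hnq]
  ring

lemma wz_last (n : ℕ) :
    (1/2) * ((n:ℚ)+1) * w (n+1) n = H n n := by
  unfold w H
  have a1 : n+1-1-n = 0 := by omega
  have a2 : n-n = 0 := by omega
  rw [a1, a2]
  have b1 : (3*(n+1))! = (3*n+3)*((3*n+2)*((3*n+1)*(3*n)!)) := by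
    rw [show 3*(n+1) = 3*n+1+1+1 by ring, Nat.factorial_succ, Nat.factorial_succ,
      Nat.factorial_succ]
  have b2 : (2*(n+1)+2*n)! = (4*n+2)*((4*n+1)*(2*n+2*n)!) := by
    rw [show 2*(n+1)+2*n = 2*n+2*n+1+1 by ring, Nat.factorial_succ, Nat.factorial_succ]
    ring
  have b4 : (n+1)! = (n+1) * n ! := Nat.factorial_succ n
  have b6 : (n+1+2*n+1)! = (3*n+2)*((3*n+1)*(n+2*n)!) := by
    rw [show n+1+2*n+1 = n+2*n+1+1 by ring, Nat.factorial_succ, Nat.factorial_succ]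
    ring
  have b9 : (n+1+n)! = (2*n+1)*(n+n)! := by
    rw [show n+1+n = n+n+1 by ring, Nat.factorial_succ]
    ring
  rw [b1, b2, b4, b6, b9]
  have c1 : ((3*n)! : ℚ) ≠ 0 := by exact_mod_cast Nat.factorial_ne_zero _
  have c2 : ((2*n+2*n)! : ℚ) ≠ 0 := by exact_mod_cast Nat.factorial_ne_zero _
  have c3 : (n ! : ℚ) ≠ 0 := by exact_mod_cast Nat.factorial_ne_zero _
  have c5 : ((n+2*n)! : ℚ) ≠ 0 := by exact_mod_cast Nat.factorial_ne_zero _
  have c6 : ((n+n)! : ℚ) ≠ 0 := by exact_mod_cast Nat.factorial_ne_zero _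
  generalize (3*n)! = A at *
  generalize (2*n+2*n)! = B at *
  generalize (n)! = C at *
  generalize (n+2*n)! = E at *
  generalize (n+n)! = F at *
  push_cast
  have d1 : (n:ℚ)+1 ≠ 0 := by positivity
  have d2 : (2*n:ℚ)+1 ≠ 0 := by positivity
  have d3 : (3*n:ℚ)+1 ≠ 0 := by positivity
  have d4 : (3*n:ℚ)+2 ≠ 0 := by positivity
  field_simp
  ring

lemma H_zero (n : ℕ) :
    H n 0 = (10*(n:ℚ)+3) * ((2*n).choose n : ℚ)^2 * ((3*n).choose n : ℚ) := by
  unfold H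
  rw [Nat.cast_choose ℚ (show n ≤ 2*n by omega), Nat.cast_choose ℚ (show n ≤ 3*n by omega)]
  rw [show 2*n-n = n by omega, show 3*n-n = 2*n by omega]
  have c3 : (n ! : ℚ) ≠ 0 := by exact_mod_cast Nat.factorial_ne_zero _
  have c4 : ((2*n)! : ℚ) ≠ 0 := by exact_mod_cast Nat.factorial_ne_zero _
  simp only [Nat.mul_zero, Nat.add_zero, Nat.sub_zero, pow_zero, Nat.cast_zero]
  field_simp
  ring

/-- the sum in the problem -/
noncomputable def S (n : ℕ) : ℚ :=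
  ∑ k ∈ Finset.range n, (10 * (k:ℚ) + 3) * ((2*k).choose k : ℚ)^2 * ((3*k).choose k : ℚ) *
    8^(n-1-k)

lemma S_succ (n : ℕ) :
    S (n+1) = 8 * S n + (10*(n:ℚ)+3) * ((2*n).choose n : ℚ)^2 * ((3*n).choose n : ℚ) := by
  unfold S
  rw [Finset.sum_range_succ, Finset.mul_sum]
  congr 1
  · refine Finset.sum_congr rfl fun k hk => ?_
    have hk' := Finset.mem_range.mp hk
    rw [show n+1-1-k = (n-1-k)+1 by omega, pow_succ]
    ring
  · rw [show n+1-1-n = 0 by omega, pow_zero, mul_one]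

lemma S_closed (n : ℕ) : S n = (1/2) * n * ∑ k ∈ Finset.range n, w n k := by
  induction n with
  | zero => simp [S]
  | succ n ih =>
    have key : (1/2) * ((n:ℚ)+1) * ∑ x ∈ Finset.range n, w (n+1) x =
        4 * n * ∑ x ∈ Finset.range n, w n x + (H n 0 - H n n) := by
      rw [Finset.mul_sum, Finset.sum_congr rfl
        (fun k hk => wz_step n k (Finset.mem_range.mp hk)), Finset.sum_add_distrib,
        Finset.sum_range_sub', ← Finset.mul_sum]
    rw [S_succ, ih, ← H_zero, Finset.sum_range_succ, mul_add]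
    push_cast
    rw [wz_last, key]
    ring

lemma w_eq (n k : ℕ) (h2 : 2 ≤ n) (hk : k < n) :
    ∃ v : ℕ, w n k = 2 * ((2*(n:ℚ)+1) * ((2*n).choose n : ℚ)) * ((-1)^k * (v:ℚ)) := by
  obtain ⟨j, hj⟩ : ∃ j, n = k + j + 1 := ⟨n - (k+1), by omega⟩
  obtain ⟨v, hv⟩ := two_mul_dvd n k j hj h2
  refine ⟨v, ?_⟩
  unfold w
  rw [show n-1-k = j by omega]
  have hv' : ((3*n)! : ℚ) * ((2*n+2*k)! : ℚ) =
      2 * (((2*n+1)! : ℚ) * (j ! : ℚ) * ((n+2*k+1)! : ℚ) * ((n+k)! : ℚ)) * v := by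
    exact_mod_cast hv
  have hs : ((2*n+1)! : ℚ) = (2*n+1) * ((2*n)! : ℚ) := by
    rw [Nat.factorial_succ]; push_cast; ring
  rw [Nat.cast_choose ℚ (show n ≤ 2*n by omega), show 2*n-n = n by omega]
  have c3 : (n ! : ℚ) ≠ 0 := by exact_mod_cast Nat.factorial_ne_zero _
  have c4 : (j ! : ℚ) ≠ 0 := by exact_mod_cast Nat.factorial_ne_zero _
  have c5 : ((n+2*k+1)! : ℚ) ≠ 0 := by exact_mod_cast Nat.factorial_ne_zero _
  have c6 : ((n+k)! : ℚ) ≠ 0 := by exact_mod_cast Nat.factorial_ne_zero _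
  rw [mul_assoc ((-1:ℚ)^k), hv', hs]
  field_simp

/-- **Main theorem.**  `a_n` is an integer for every `n ≥ 2`. -/
theorem result (n : ℕ) (hn : 2 ≤ n) :
    ∃ a : ℤ, (1 / ((n:ℚ) * (2*n+1) * ((2*n).choose n : ℚ))) *
      ∑ k ∈ Finset.range n, (10 * (k:ℚ) + 3) * ((2*k).choose k : ℚ)^2 *
        ((3*k).choose k : ℚ) * 8^(n-1-k) = (a:ℚ) := by
  have hex : ∀ k, ∃ v : ℕ, k < n →
      w n k = 2 * ((2*(n:ℚ)+1) * ((2*n).choose n : ℚ)) * ((-1)^k * (v:ℚ)) := fun k => by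
    by_cases hk : k < n
    · obtain ⟨v, hv⟩ := w_eq n k hn hk
      exact ⟨v, fun _ => hv⟩
    · exact ⟨0, fun h => absurd h hk⟩
  choose v hv using hex
  refine ⟨∑ k ∈ Finset.range n, (-1)^k * (v k : ℤ), ?_⟩
  have hS := S_closed n
  unfold S at hS
  rw [hS, Finset.sum_congr rfl (fun k hk => hv k (Finset.mem_range.mp hk)), ← Finset.mul_sum]
  have c1 : (n:ℚ) ≠ 0 := by
    have : n ≠ 0 := by omega
    exact_mod_cast this
  have c2 : (2*(n:ℚ)+1) ≠ 0 := by positivity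
  have c3 : ((2*n).choose n : ℚ) ≠ 0 := by
    exact_mod_cast (Nat.choose_pos (show n ≤ 2*n by omega)).ne'
  push_cast
  field_simp

end Pool.Agent.Results.MP_1cf91b_nt.Integrality
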